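import Pool.Agent.TH826.EF.Final
set_option autoImplicit false

/-!
The regulator on `H^d(𝒳, ℚ(d))`, `d = dim 𝒳`, for elliptic fibrations over the affine space:
on the varieties `y + 1/y + z + 1/z = λ ∏_e L_e` of dimension `n + 2`, the `L_e` being `m + 1` affine
forms in `n + 1` variables in general position with integral coefficients and unit maximal minors,
`binom(m, n + 1)` unramified classes in Milnor K-theory with linearly independent regulators, for
all large integers `λ`.  For `n = 0` these are elliptic surfaces of geometric genus `m`.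
-/

namespace Pool.Agent.Results.MP_51fc19_nt.EllipticFibrations

open Pool.Agent.TH826.MK (KQ symb Unramified Torus)

open Pool.Agent.TH826.GA (Unimod splx)

open Pool.Agent.TH826.DC (dPhi)

open Pool.Agent.TH826.EF

/-- Let `n + 1 ≤ m`, let `σ` be a complex embedding of the number field `K`, and let
`L_e = ∑_j c_{e,j} x_j - a_e`, `0 ≤ e ≤ m`, be affine forms in `n + 1` variables with integral
coefficients in `K`, such that all determinants `det (c_{T_i,j})` of `n + 1` different forms are
units (of the ring of algebraic integers) and no `n + 2` of the forms have a common zero over `K`.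
There is a constant `C` such that for all algebraic integers `λ` of `K` with `|σ λ| ≥ C` the
coordinate ring of the hypersurface `F = y z² + (y² + 1 - Φ y) z + y = 0`, `Φ = λ ∏_e L_e`, of
dimension `n + 2` (that is `y + 1/y + z + 1/z = Φ`) is a domain; the complex points over `σ` with
`y z Φ ≠ 0` are smooth (the partial derivatives `∂F/∂y`, `∂F/∂z` and `- y z ∂Φ/∂x_j` do not
vanish simultaneously); for all `n + 2` different forms `S` the symbol
`{z, y, u_1, ..., u_{n+1}}`, `u_k = γ_k L_{S_k} / (γ_0 L_{S_0})`, on the open part `y z Φ ≠ 0` is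
unramified at all discrete valuations of the function field, where `γ_k` is `(-1)^k` times the
determinant of the linear parts of the forms `S` without `S_k`; and there are `binom(m, n + 1)` tori
of dimension `n + 2` in the complex points (over `σ`) of the open part, such that the determinant of
the regulators on the tori of the symbols of the `S = (0, t_0, ..., t_n)` with
`1 ≤ t_0 < ... < t_n ≤ m` does not vanish. -/
theorem result (n m : ℕ) (hm : n + 1 ≤ m) (K : Type*) [Field K] [NumberField K]
    (σ : K →+* ℂ) (c : Fin (m + 1) → Fin (n + 1) → K) (a : Fin (m + 1) → K) (hA : Unimod c a)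
    (hgen : ∀ S : Fin (n + 2) → Fin (m + 1), Function.Injective S → ∀ x : Fin (n + 1) → K,
      ∃ i, ∑ j, c (S i) j * x j ≠ a (S i)) :
    ∃ C : ℝ, ∀ lam : K, IsIntegral ℤ lam → C ≤ ‖σ lam‖ →
      IsDomain (ERing lam c a) ∧
      (∀ (x : Fin (n + 1) → ℂ) (y z : ℂ), y ≠ 0 → z ≠ 0 →
        MvPolynomial.eval₂ σ x (dPhi lam c a) ≠ 0 →
        y * z ^ 2 + (y ^ 2 + 1 - MvPolynomial.eval₂ σ x (dPhi lam c a) * y) * z + y = 0 →
        z ^ 2 + (2 * y - MvPolynomial.eval₂ σ x (dPhi lam c a)) * z + 1 ≠ 0 ∨
        2 * y * z + (y ^ 2 + 1 - MvPolynomial.eval₂ σ x (dPhi lam c a) * y) ≠ 0 ∨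
        ∃ j, MvPolynomial.eval₂ σ x (MvPolynomial.pderiv j (dPhi lam c a)) * y * z ≠ 0) ∧
      (∀ (L : Type*) [Field L] [Algebra (ERing lam c a) L] [IsFractionRing (ERing lam c a) L],
        ∃ f : EOpen lam c a →+* L,
          (∀ b : ERing lam c a, f (toE lam c a b) = algebraMap (ERing lam c a) L b) ∧
          ∀ S : Fin (n + 2) → Fin (m + 1), Function.Injective S →
            KQ.map (n + 3) f (symb (eent lam c a S)) ∈ Unramified L (n + 3)) ∧
      ∃ Γ : {s : Finset (Fin m) // s.card = n + 1} → Torus (EOpen lam c a) (n + 2),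
        (∀ t θ (x : K), (Γ t).e θ (ecst lam c a x) = σ x) ∧
        (Matrix.of fun t i : {s : Finset (Fin m) // s.card = n + 1} =>
          (Γ t).reg (symb (eent lam c a (splx i)))).det ≠ 0 := by
  obtain ⟨c1, hc1, h⟩ := exists_tori (a := a) σ hA.det_ne hgen
  obtain ⟨c2, h2⟩ := exists_smooth σ hA.det_ne hgen hm
  have hrow : ∀ e, c e ≠ 0 := Pool.Agent.TH826.DC.row_ne_zero hA.det_ne (by omega)
  refine ⟨max c1 c2, fun lam hlam hl => ?_⟩
  have hl1 : c1 ≤ ‖σ lam‖ := (le_max_left _ _).trans hl
  have hl0 : lam ≠ 0 := by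
    intro h0
    rw [h0, map_zero, norm_zero] at hl1
    linarith
  refine ⟨isDomain_ERing hrow hl0, h2 lam ((le_max_right _ _).trans hl), ?_, h lam hl1⟩
  intro L _ _ _
  have hinj : Function.Injective (algebraMap (ERing lam c a) L) := IsFractionRing.injective _ _
  have hne : algebraMap (ERing lam c a) L (eDel lam c a) ≠ 0 := by
    rw [Ne, map_eq_zero_iff _ hinj]
    exact eDel_ne_zero hrow hl0
  refine ⟨liftE (algebraMap (ERing lam c a) L) hne, fun b => liftE_toE _ _ _, fun S hS => ?_⟩
  exact symb_mem_unramified _ hlam hA hS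

end Pool.Agent.Results.MP_51fc19_nt.EllipticFibrations
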