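import Pool.Agent.TH90.Cub.RTh

/-!
# The regulator in weight `d`: duality for all arithmetic schemes and gate complements

For an arithmetic scheme `X` (separated, of finite type over `ℤ`) let
* `C_i(X) = CH_0(X, i)_ℝ` (zero-cycles; if `X` is regular of dimension `d`, this is
  `H^{2d-i}(X, ℚ(d))_ℝ`),
* `D_i(X) = H_i^{BM}(X(ℂ), ℝ)^{G_ℝ}` (if `X` is proper and regular of dimension `d`, this is
  `H^{2d-1-i}_𝒟(X_{/ℝ}, ℝ(d))` for `i ≥ 0`),
* `R_i(X)` the cohomology of the cone of the regulator `C_{i+1} → D_i` (Arakelov motivic homology),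
* `B_i(X)` the dual of the cohomology with compact support `H^i_c(X, ℚ(0))_ℝ` of weight zero.

The pairing of `R_i(X)` and `H^i_c(X, ℚ(0))_ℝ` gives the map `cmp : R_i(X) → B_i(X)`.
`Theories.Duality T X` says that this is bijective for all `i`.
-/

set_option autoImplicit false

open CategoryTheory AlgebraicGeometry Pool.Agent.TH90.Cub

namespace Pool.Agent.Results.MP_51fc19_nt.GateComplements

/-- The groups: `C_i(X) = CH_0(X, i)_ℝ`, `D_i(X) = H_i^{BM}(X(ℂ), ℝ)^{G_ℝ}`, the groups `R_i(X)` of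
the cone of the regulator `reg : C_{i+1}(X) → D_i(X)`, the dual `B_i(X)` of the cohomology with
compact support `H^i_c(X, ℚ(0))_ℝ`, and the map `cmp : R_i(X) → B_i(X)`. -/
structure Theories where
  C : RTheory
  D : RTheory
  R : RTheory
  B : RTheory
  reg : ∀ i X, RLin C (i + 1) X D i X
  inc : ∀ i X, RLin D i X R i X
  out : ∀ i X, RLin R i X C i X
  ex_D : ∀ i X, REx (reg i X) (inc i X)
  ex_R : ∀ i X, REx (inc i X) (out i X)
  ex_C : ∀ i X, REx (out (i + 1) X) (reg i X)
  cmp : RNat R B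

/-- Duality in weight zero for `X`: the maps `R_i(X) → B_i(X)` are bijective for all `i`. -/
def Theories.Duality (T : Theories) (X : Scheme.{0}) : Prop := T.cmp.BijAt X

/-- The groups of the problem, for a regular scheme `X` proper over `ℤ` with generic fibre `X_ℚ`:
`M d j X = H^j(X, ℚ(d))_ℝ`, `H d j X = H^j_𝒟(X_{/ℝ}, ℝ(d))`, `E 0 X = CH^0(X_ℚ)^*_ℝ`, and
`r d j X`: restriction to the generic fibre followed by the regulator. -/
structure Regulators where
  M : ℕ → RTheory
  H : ℕ → RTheory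
  E : RTheory
  r : ∀ (d : ℕ) (j : ℤ) (X : Scheme.{0}), RLin (M d) j X (H d) j X

/-- The statement of the problem for `X` of dimension `d`: `r_i : M^{2d-1-i} → H^{2d-1-i}` is
bijective for `i ≥ 1`, and there is an exact sequence `0 → M^{2d-1} → H^{2d-1} → CH^0(X_ℚ)^* → 0`
with first map `r_0`. -/
def Regulators.Statement (S : Regulators) (d : ℕ) (X : Scheme.{0}) : Prop :=
  (∀ i : ℤ, 1 ≤ i → (S.r d (2 * d - 1 - i) X).Bij) ∧
    (S.r d (2 * d - 1) X).Inj ∧
    ∃ δ : RLin (S.H d) (2 * d - 1) X S.E 0 X, REx (S.r d (2 * d - 1) X) δ ∧ δ.Surj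

/-- The known facts on a scheme `X` which is regular, connected, proper and flat over `ℤ`, of
dimension `d`: `H^{2d-1-i}(X, ℚ(d))_ℝ = C_{i+1}(X)` and `H^{2d-1-i}_𝒟(X_{/ℝ}, ℝ(d)) = D_i(X)` for
`i ≥ 0`, compatible with the regulators (`sq`); `D_i(X) = 0` for `i < 0`; `C_i(X) = 0` for `i < 0`,
and `C_0(X) = 0` as `CH_0(X)` is finite; `H^i_c(X, ℚ(0)) = 0` for `i ≠ 0`, and
`H^0_c(X, ℚ(0)) = CH^0(X_ℚ)_ℚ` is finite-dimensional; the degree map `D_0(X) → B_0(X)` is
surjective. -/
structure Comparison (T : Theories) (S : Regulators) (d : ℕ) (X : Scheme.{0}) where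
  a : ∀ i : ℤ, 0 ≤ i → ∀ j : ℤ, j = 2 * d - 1 - i → REqv (S.M d) j X T.C (i + 1) X
  b : ∀ i : ℤ, 0 ≤ i → ∀ j : ℤ, j = 2 * d - 1 - i → REqv (S.H d) j X T.D i X
  sq : ∀ i hi j hj m, (T.reg i X).ap ((a i hi j hj).ap m) = (b i hi j hj).ap ((S.r d j X).ap m)
  D_neg : ∀ i : ℤ, i < 0 → Subsingleton (T.D.G i X)
  C_nonpos : ∀ i : ℤ, i ≤ 0 → Subsingleton (T.C.G i X)
  B_ne : ∀ i : ℤ, i ≠ 0 → Subsingleton (T.B.G i X)
  e : REqv T.B 0 X S.E 0 X
  fin : FiniteDimensional ℝ (T.B.G 0 X)
  degree : ∀ y : T.B.G 0 X, ∃ x : T.D.G 0 X, (T.cmp.at 0 X).ap ((T.inc 0 X).ap x) = y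

section linear

variable (T : Theories) (S : Regulators)

def Theories.regL (i : ℤ) (X : Scheme.{0}) : T.C.G (i + 1) X →ₗ[ℝ] T.D.G i X := T.reg i X

def Theories.incL (i : ℤ) (X : Scheme.{0}) : T.D.G i X →ₗ[ℝ] T.R.G i X := T.inc i X

def Theories.outL (i : ℤ) (X : Scheme.{0}) : T.R.G i X →ₗ[ℝ] T.C.G i X := T.out i X

def Regulators.rL (d : ℕ) (j : ℤ) (X : Scheme.{0}) : (S.M d).G j X →ₗ[ℝ] (S.H d).G j X := S.r d j X

theorem Theories.exD (i : ℤ) (X : Scheme.{0}) : Function.Exact (T.regL i X) (T.incL i X) :=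
  T.ex_D i X

theorem Theories.exR (i : ℤ) (X : Scheme.{0}) : Function.Exact (T.incL i X) (T.outL i X) :=
  T.ex_R i X

theorem Theories.exC (i : ℤ) (X : Scheme.{0}) : Function.Exact (T.outL (i + 1) X) (T.regL i X) :=
  T.ex_C i X

/-- The statement in terms of `C`, `D` and `B`. -/
theorem statement_iff {T : Theories} {S : Regulators} {d : ℕ} {X : Scheme.{0}}
    (K : Comparison T S d X) : S.Statement d X ↔
      (∀ i : ℤ, 1 ≤ i → Function.Bijective (T.regL i X)) ∧ Function.Injective (T.regL 0 X) ∧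
      ∃ δ : T.D.G 0 X →ₗ[ℝ] T.B.G 0 X, Function.Exact (T.regL 0 X) δ ∧ Function.Surjective δ := by
  have key : ∀ (i : ℤ) (hi : 0 ≤ i) (j : ℤ) (hj : j = 2 * d - 1 - i),
      ∃ (a : (S.M d).G j X ≃ₗ[ℝ] T.C.G (i + 1) X) (b : (S.H d).G j X ≃ₗ[ℝ] T.D.G i X),
        ∀ m, T.regL i X (a m) = b (S.rL d j X m) :=
    fun i hi j hj => ⟨K.a i hi j hj, K.b i hi j hj, fun m => K.sq i hi j hj m⟩
  have hinj : ∀ (i : ℤ) (_ : 0 ≤ i) (j : ℤ) (_ : j = 2 * d - 1 - i),
      (Function.Injective (S.rL d j X) ↔ Function.Injective (T.regL i X)) := by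
    intro i hi j hj
    obtain ⟨a, b, h⟩ := key i hi j hj
    have hfun : (T.regL i X) ∘ a = b ∘ (S.rL d j X) := funext h
    rw [← Function.Injective.of_comp_iff' (T.regL i X) a.bijective, hfun]
    exact (Function.Injective.of_comp_iff b.injective _).symm
  have hbij : ∀ (i : ℤ) (_ : 0 ≤ i) (j : ℤ) (_ : j = 2 * d - 1 - i),
      (Function.Bijective (S.rL d j X) ↔ Function.Bijective (T.regL i X)) := by
    intro i hi j hj
    obtain ⟨a, b, h⟩ := key i hi j hj
    have hfun : (T.regL i X) ∘ a = b ∘ (S.rL d j X) := funext h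
    rw [← Function.Bijective.of_comp_iff (T.regL i X) a.bijective, hfun]
    exact (Function.Bijective.of_comp_iff' b.bijective _).symm
  have hex : (∃ δ : RLin (S.H d) (2 * d - 1) X S.E 0 X, REx (S.r d (2 * d - 1) X) δ ∧ δ.Surj) ↔
      ∃ δ : T.D.G 0 X →ₗ[ℝ] T.B.G 0 X, Function.Exact (T.regL 0 X) δ ∧ Function.Surjective δ := by
    obtain ⟨a, b, h⟩ := key 0 le_rfl (2 * d - 1) (by ring)
    let e : T.B.G 0 X ≃ₗ[ℝ] S.E.G 0 X := K.e
    constructor
    · rintro ⟨δ, h1, h2⟩
      let δ' : (S.H d).G (2 * d - 1) X →ₗ[ℝ] S.E.G 0 X := δ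
      have h1' : Function.Exact (S.rL d (2 * d - 1) X) δ' := h1
      have h2' : Function.Surjective δ' := h2
      refine ⟨e.symm.toLinearMap.comp (δ'.comp b.symm.toLinearMap), ?_, ?_⟩
      · intro y
        constructor
        · intro hy
          have h3 : δ' (b.symm y) = 0 := e.symm.injective (by
            rw [map_zero]; exact hy)
          obtain ⟨m, hm⟩ := (h1' _).mp h3
          exact ⟨a m, by rw [h, hm, LinearEquiv.apply_symm_apply]⟩
        · rintro ⟨c, rfl⟩
          obtain ⟨m, rfl⟩ := a.surjective c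
          rw [h]
          change e.symm (δ' (b.symm (b _))) = 0
          rw [LinearEquiv.symm_apply_apply, h1'.apply_apply_eq_zero, map_zero]
      · exact e.symm.surjective.comp (h2'.comp b.symm.surjective)
    · rintro ⟨δ, h1, h2⟩
      let δ' : (S.H d).G (2 * d - 1) X →ₗ[ℝ] S.E.G 0 X :=
        e.toLinearMap.comp (δ.comp b.toLinearMap)
      refine ⟨δ', ?_, ?_⟩
      · change Function.Exact (S.rL d (2 * d - 1) X) δ'
        intro y
        constructor
        · intro hy
          have h3 : δ (b y) = 0 := e.injective (by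
            rw [map_zero]; exact hy)
          obtain ⟨c, hc⟩ := (h1 _).mp h3
          obtain ⟨m, rfl⟩ := a.surjective c
          rw [h] at hc
          exact ⟨m, b.injective hc⟩
        · rintro ⟨m, rfl⟩
          change e (δ (b (S.rL d (2 * d - 1) X m))) = 0
          rw [← h, h1.apply_apply_eq_zero, map_zero]
      · change Function.Surjective δ'
        exact e.surjective.comp (h2.comp b.surjective)
  unfold Regulators.Statement
  rw [hex]
  constructor
  · rintro ⟨h1, h2, h3⟩
    exact ⟨fun i hi => (hbij i (by omega) _ rfl).mp (h1 i hi),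
      (hinj 0 le_rfl (2 * d - 1) (by ring)).mp h2, h3⟩
  · rintro ⟨h1, h2, h3⟩
    exact ⟨fun i hi => (hbij i (by omega) _ rfl).mpr (h1 i hi),
      (hinj 0 le_rfl (2 * d - 1) (by ring)).mpr h2, h3⟩

/-- Duality for `X` is the statement of the problem. -/
theorem duality_iff {T : Theories} {S : Regulators} {d : ℕ} {X : Scheme.{0}}
    (K : Comparison T S d X) : T.Duality X ↔ S.Statement d X := by
  rw [statement_iff K]
  have hD : ∀ i : ℤ, i < 0 → Subsingleton (T.D.G i X) := K.D_neg
  have hC : ∀ i : ℤ, i ≤ 0 → Subsingleton (T.C.G i X) := K.C_nonpos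
  have hB : ∀ i : ℤ, i ≠ 0 → Subsingleton (T.B.G i X) := K.B_ne
  have hdeg : Function.Surjective ((T.cmp.L 0 X).comp (T.incL 0 X)) := K.degree
  constructor
  · intro h
    have hbij : ∀ i, Function.Bijective (T.cmp.L i X) := h
    have hR : ∀ i : ℤ, i ≠ 0 → Subsingleton (T.R.G i X) := fun i hi => by
      have := hB i hi
      exact (hbij i).1.subsingleton
    have hinj : ∀ i : ℤ, 0 ≤ i → Function.Injective (T.regL i X) := by
      intro i hi
      have := hR (i + 1) (by omega)
      rw [injective_iff_map_eq_zero]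
      intro c hc
      obtain ⟨x, rfl⟩ := (T.exC i X c).mp hc
      rw [Subsingleton.elim x 0, map_zero]
    refine ⟨fun i hi => ⟨hinj i (by omega), ?_⟩, hinj 0 le_rfl,
      (T.cmp.L 0 X).comp (T.incL 0 X), ?_, hdeg⟩
    · have := hR i (by omega)
      intro y
      exact (T.exD i X y).mp (Subsingleton.elim _ _)
    · intro y
      constructor
      · intro hy
        apply (T.exD 0 X y).mp
        exact (hbij 0).1 (by rw [map_zero]; exact hy)
      · rintro ⟨c, rfl⟩
        rw [LinearMap.comp_apply, (T.exD 0 X).apply_apply_eq_zero, map_zero]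
  · rintro ⟨h1, h2, δ, h3, h4⟩
    have hinj : ∀ i : ℤ, 0 ≤ i → Function.Injective (T.regL i X) := by
      intro i hi
      rcases hi.eq_or_lt with rfl | hi
      · exact h2
      · exact (h1 i (by omega)).1
    have hR : ∀ i : ℤ, i ≠ 0 → Subsingleton (T.R.G i X) := by
      intro i hi
      refine ⟨fun x y => ?_⟩
      have hz : ∀ x : T.R.G i X, x = 0 := by
        intro x
        have e1 : T.outL i X x = 0 := by
          rcases lt_or_gt_of_ne hi with hi | hi
          · have := hC i hi.le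
            exact Subsingleton.elim _ _
          · obtain ⟨j, rfl⟩ : ∃ j : ℤ, i = j + 1 := ⟨i - 1, by ring⟩
            apply hinj j (by omega)
            rw [map_zero]
            exact (T.exC j X).apply_apply_eq_zero x
        obtain ⟨y, rfl⟩ := (T.exR i X x).mp e1
        rcases lt_or_gt_of_ne hi with hi | hi
        · have := hD i hi
          rw [Subsingleton.elim y 0, map_zero]
        · obtain ⟨c, rfl⟩ := (h1 i (by omega)).2 y
          exact (T.exD i X).apply_apply_eq_zero c
      rw [hz x, hz y]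
    intro i
    change Function.Bijective (T.cmp.L i X)
    by_cases hi : i = 0
    · subst hi
      have hsurj : Function.Surjective (T.cmp.L 0 X) := fun y => by
        obtain ⟨x, hx⟩ := hdeg y
        exact ⟨T.incL 0 X x, hx⟩
      have hinc : Function.Surjective (T.incL 0 X) := by
        intro x
        have := hC 0 le_rfl
        exact (T.exR 0 X x).mp (Subsingleton.elim _ _)
      -- `R_0` and `B_0` are both the cokernel of the regulator
      have hker : LinearMap.ker (T.incL 0 X) = LinearMap.ker δ := by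
        ext y
        rw [LinearMap.mem_ker, LinearMap.mem_ker]
        exact (T.exD 0 X y).trans (h3 y).symm
      let e1 : (T.D.G 0 X ⧸ LinearMap.ker (T.incL 0 X)) ≃ₗ[ℝ] T.R.G 0 X :=
        (T.incL 0 X).quotKerEquivOfSurjective hinc
      let e2 : (T.D.G 0 X ⧸ LinearMap.ker δ) ≃ₗ[ℝ] T.B.G 0 X := δ.quotKerEquivOfSurjective h4
      let e3 : (T.D.G 0 X ⧸ LinearMap.ker (T.incL 0 X)) ≃ₗ[ℝ] (T.D.G 0 X ⧸ LinearMap.ker δ) :=
        Submodule.quotEquivOfEq _ _ hker
      let e : T.R.G 0 X ≃ₗ[ℝ] T.B.G 0 X := e1.symm.trans (e3.trans e2)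
      have hfin : FiniteDimensional ℝ (T.B.G 0 X) := K.fin
      have hfin' : FiniteDimensional ℝ (T.R.G 0 X) := LinearEquiv.finiteDimensional e.symm
      have hrk : Module.finrank ℝ (T.R.G 0 X) = Module.finrank ℝ (T.B.G 0 X) := e.finrank_eq
      exact ⟨(LinearMap.injective_iff_surjective_of_finrank_eq_finrank hrk).mpr hsurj, hsurj⟩
    · have h5 := hR i hi
      have h6 := hB i hi
      exact ⟨fun a b _ => Subsingleton.elim a b, fun c => ⟨0, Subsingleton.elim _ _⟩⟩

end linear

/-- (1) Duality in weight zero holds for all arithmetic schemes if and only if it holds for the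
complements in affine spaces over `ℤ` of the unions of finitely many hypersurfaces `x_a x_b = x_c`,
`x_a + x_b = x_c`, `x_a = 1`. (2) For a regular connected scheme `X`, proper and flat over `ℤ`, of
dimension `d`, duality in weight zero is equivalent to the statement of the problem for `X`. (3) So
the latter holds for all such `X` if duality holds for the complements in (1). -/
theorem result (T : Theories) (hT : RFormalism T.cmp) (S : Regulators)
    (hS : ∀ (d : ℕ) (X : Scheme.{0}) (f : X ⟶ Spec (CommRingCat.of ℤ)), IsProper f → Flat f →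
      RegularScheme X → ConnectedSpace X → topologicalKrullDim X = d →
      Nonempty (Comparison T S d X)) :
    ((∀ (X : Scheme.{0}) (f : X ⟶ Spec (CommRingCat.of ℤ)), FT True ℤ f → T.Duality X) ↔
      (∀ (N : ℕ) (h : MvPolynomial (Fin N) ℤ), h ∈ Submonoid.closure {g | IsGate {1} g} →
        T.Duality (CompZ h))) ∧
    (∀ (d : ℕ) (X : Scheme.{0}) (f : X ⟶ Spec (CommRingCat.of ℤ)), IsProper f → Flat f →
      RegularScheme X → ConnectedSpace X → topologicalKrullDim X = d →
      (T.Duality X ↔ S.Statement d X)) ∧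
    ((∀ (N : ℕ) (h : MvPolynomial (Fin N) ℤ), h ∈ Submonoid.closure {g | IsGate {1} g} →
        T.Duality (CompZ h)) →
      ∀ (d : ℕ) (X : Scheme.{0}) (f : X ⟶ Spec (CommRingCat.of ℤ)), IsProper f → Flat f →
        RegularScheme X → ConnectedSpace X → topologicalKrullDim X = d → S.Statement d X) := by
  have h2 : ∀ (d : ℕ) (X : Scheme.{0}) (f : X ⟶ Spec (CommRingCat.of ℤ)), IsProper f → Flat f →
      RegularScheme X → ConnectedSpace X → topologicalKrullDim X = d →
      (T.Duality X ↔ S.Statement d X) := by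
    intro d X f hf hfl hreg hcon hdim
    obtain ⟨K⟩ := hS d X f hf hfl hreg hcon hdim
    exact duality_iff K
  refine ⟨⟨fun h N h' _ => h _ (str ℤ _) (ft_gate h'), fun h X f hf => r_gates hT h X f hf⟩, h2,
    fun h d X f hf hfl hreg hcon hdim => ?_⟩
  have hft : FT True ℤ f := ⟨inferInstance, inferInstance, fun _ => inferInstance⟩
  exact (h2 d X f hf hfl hreg hcon hdim).mp (r_gates hT h X f hft)

end Pool.Agent.Results.MP_51fc19_nt.GateComplements
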