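import Pool.Agent.TH333.UP.Final
import Pool.Agent.TH333.UP.Smo
import Pool.Agent.TH333.UP.Unr
set_option autoImplicit false

/-!
Regulators at two archimedean places, in weight `dim X + 1`, for `i = dim X`: on the hypersurfaces
`(z_0 - α) (z_0 - β) ∏_j ∏_i (z_j - a_{j,i}) = λ z_0 ∏_j z_j^{m_j}` over a number field `K`, `α`, `β`,
`a_{j,i}` roots of unity and `λ` a unit which is large at the place `σ` and small at the place `τ`,
there are `1 + p_g` unramified classes in Milnor K-theory, `p_g = ∏_j r_j`, with linearly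
independent regulators. For `r_j = 1` the hypersurface is a Calabi-Yau variety, and for real
quadratic `K` the number of the classes is `p_g [K : ℚ] = 2`.
-/

namespace Pool.Agent.Results.MP_51fc19_nt.UnitPencils

open Pool.Agent.TH826.MK (KQ symb Unramified Torus)

open Pool.Agent.TH333.UP

section defs

variable {K : Type*} [Field K] {n : ℕ}

/-- At all complex points (over `ρ`) of the hypersurface at which no `z_j` vanishes the gradient of
the equation is not `0`. -/
def SmoothPoints (ρ : K →+* ℂ) (lam : K) (D : Dat K n) : Prop :=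
  ∀ p : Fin (n + 1) → ℂ, (∀ j, p j ≠ 0) → MvPolynomial.eval₂ ρ p (ueqn lam D) = 0 →
    ∃ i, MvPolynomial.eval₂ ρ p (MvPolynomial.pderiv i (ueqn lam D)) ≠ 0

/-- The symbols are unramified at all discrete valuations of the fraction field of the coordinate
ring of the hypersurface. -/
def UnramifiedSymbols.{u, v} {K : Type u} [Field K] {n : ℕ} (lam : K) (D : Dat K n) : Prop :=
  ∀ (L : Type v) [Field L] [Algebra (URing lam D) L] [IsFractionRing (URing lam D) L],
    ∃ f : UOpen lam D →+* L,
      (∀ b : URing lam D, f (toU lam D b) = algebraMap (URing lam D) L b) ∧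
      ∀ o : Option ((j : Fin n) → Fin (D.r j)),
        KQ.map (n + 1) f (symb (uent lam D o)) ∈ Unramified L (n + 1)

/-- There are `1 + ∏_j r_j` tori of dimension `n` in the complex points of the open part, one over
`σ` and `∏_j r_j` over `τ`, such that the determinant of the regulators on the tori of the
`1 + ∏_j r_j` symbols does not vanish. -/
def IndependentRegulators (σ τ : K →+* ℂ) (lam : K) (D : Dat K n) : Prop :=
  ∃ Γ : Option ((j : Fin n) → Fin (D.r j)) → Torus (UOpen lam D) n,
    (∀ θ x, (Γ none).e θ (ucst lam D x) = σ x) ∧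
    (∀ k θ x, (Γ (some k)).e θ (ucst lam D x) = τ x) ∧
    (Matrix.of fun t o : Option ((j : Fin n) → Fin (D.r j)) =>
      (Γ t).reg (symb (uent lam D o))).det ≠ 0

/-- The conclusions. -/
def Concl.{u, v} {K : Type u} [Field K] {n : ℕ} (σ τ : K →+* ℂ) (lam : K) (D : Dat K n) : Prop :=
  IsDomain (URing lam D) ∧ SmoothPoints σ lam D ∧ SmoothPoints τ lam D ∧
    UnramifiedSymbols.{u, v} lam D ∧ IndependentRegulators σ τ lam D

end defs

/-- Let `n ≥ 1`, let `K` be a number field, let `α ≠ β` be roots of unity in `K`, and for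
`1 ≤ j ≤ n` let `a_{j,0}, ..., a_{j,r_j}` be different roots of unity in `K`, and `1 ≤ m_j ≤ r_j`.
There is a constant `C` such that for all units `λ` of the ring of integers of `K` and all complex
embeddings `σ`, `τ` with `|σ λ| ≥ C`, `|τ λ| C ≤ 1`: the coordinate ring of the hypersurface
`(z_0 - α) (z_0 - β) ∏_j ∏_i (z_j - a_{j,i}) = λ z_0 ∏_j z_j^{m_j}` in the affine space of dimension
`n + 1` is a domain; the hypersurface is smooth at all complex points over `σ` and `τ` at which no
`z_j` vanishes; the `1 + ∏_j r_j` symbols `{z_0, ..., z_n}` and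
`{(z_0 - α)/(z_0 - β), (z_1 - a_{1,k_1})/(z_1 - a_{1,r_1}), ..., (z_n - a_{n,k_n})/(z_n - a_{n,r_n})}`,
`0 ≤ k_j < r_j`, on the open part at which no `z_j` vanishes are unramified at all discrete
valuations of the function field; and there are a torus of dimension `n` over `σ` and `∏_j r_j` tori
over `τ` such that the determinant of the regulators of the symbols on the tori does not vanish. For
each unit `e` which is not a root of unity there are `σ`, `τ` such that all this is true for all
powers `λ = e^m` with large `m`. -/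
theorem result.{u, v} (n : ℕ) (hn : 1 ≤ n) (K : Type u) [Field K] [NumberField K] (D : Dat K n)
    (hD : D.Ok) :
    (∃ C : ℝ, ∀ (σ τ : K →+* ℂ) (lam : K), IsIntegral ℤ lam → IsIntegral ℤ lam⁻¹ →
      C ≤ ‖σ lam‖ → ‖τ lam‖ * C ≤ 1 → Concl.{u, v} σ τ lam D) ∧
    ∀ e : K, e ≠ 0 → IsIntegral ℤ e → IsIntegral ℤ e⁻¹ → (∀ k : ℕ, 0 < k → e ^ k ≠ 1) →
      ∃ (σ τ : K →+* ℂ) (M : ℕ), ∀ m ≥ M, Concl.{u, v} σ τ (e ^ m) D := by
  have h1 : ∃ C : ℝ, ∀ (σ τ : K →+* ℂ) (lam : K), IsIntegral ℤ lam → IsIntegral ℤ lam⁻¹ →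
      C ≤ ‖σ lam‖ → ‖τ lam‖ * C ≤ 1 → Concl.{u, v} σ τ lam D := by
    classical
    set j0 : Fin n := ⟨0, hn⟩ with hj0
    choose M hM0 hM using fun σ τ : K →+* ℂ => exists_tori hD σ τ
    choose S hS using fun σ : K →+* ℂ => exists_smooth hD σ
    set M1 : ℝ := ∑ σ, ∑ τ, M σ τ with hM1
    have hM1a : ∀ σ τ, M σ τ ≤ M1 := fun σ τ =>
      (Finset.single_le_sum (f := fun τ => M σ τ) (fun τ _ => (hM0 σ τ).le)
        (Finset.mem_univ τ)).trans
      (Finset.single_le_sum (f := fun σ => ∑ τ, M σ τ)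
        (fun σ _ => Finset.sum_nonneg fun τ _ => (hM0 σ τ).le) (Finset.mem_univ σ))
    have hM1b : 0 ≤ M1 := Finset.sum_nonneg fun σ _ => Finset.sum_nonneg fun τ _ => (hM0 σ τ).le
    set S1 : ℝ := ∑ σ, |S σ| with hS1
    have hS1a : ∀ σ, S σ ≤ S1 := fun σ => (le_abs_self _).trans
      (Finset.single_le_sum (f := fun σ => |S σ|) (fun σ _ => abs_nonneg _) (Finset.mem_univ σ))
    have hS1b : 0 ≤ S1 := Finset.sum_nonneg fun σ _ => abs_nonneg _
    set G : ℝ := ∑ σ : K →+* ℂ, ‖σ (cc D j0)‖ * 2 ^ (D.r j0 + 1) with hG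
    have hGa : ∀ σ : K →+* ℂ, ‖σ (cc D j0)‖ * 2 ^ (D.r j0 + 1) ≤ G := fun σ =>
      Finset.single_le_sum (f := fun σ : K →+* ℂ => ‖σ (cc D j0)‖ * 2 ^ (D.r j0 + 1))
        (fun σ _ => by positivity) (Finset.mem_univ σ)
    have hGb : 0 ≤ G := Finset.sum_nonneg fun σ _ => by positivity
    set q : ℝ := M1 + S1 + 1 with hq
    have hexp := Real.exp_pos q
    refine ⟨Real.exp q + G, fun σ τ lam hi hi' hσ hτ => ?_⟩
    have hC0 : 0 < Real.exp q + G := by linarith
    have hl0 : lam ≠ 0 := by
      rintro rfl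
      rw [map_zero, norm_zero] at hσ
      linarith
    have hσ0 : 0 < ‖σ lam‖ := norm_pos_iff.2 ((map_ne_zero σ).2 hl0)
    have hτ0 : 0 < ‖τ lam‖ := norm_pos_iff.2 ((map_ne_zero τ).2 hl0)
    have hlσ : q ≤ Real.log ‖σ lam‖ := by
      rw [Real.le_log_iff_exp_le hσ0]
      linarith
    have hlτ : q ≤ -Real.log ‖τ lam‖ := by
      rw [← Real.log_inv, Real.le_log_iff_exp_le (inv_pos.2 hτ0)]
      have h2 : Real.exp q + G ≤ ‖τ lam‖⁻¹ := by
        rw [← one_div, le_div_iff₀ hτ0]
        linarith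
      linarith
    refine ⟨isDomain_URing hD σ j0 ?_, ?_, ?_, ?_, ?_⟩
    · have := hGa σ
      linarith
    · refine hS σ lam hl0 ?_
      have h2 := hS1a σ
      have h3 := le_abs_self (Real.log ‖σ lam‖)
      linarith
    · refine hS τ lam hl0 ?_
      have h2 := hS1a τ
      have h3 := neg_le_abs (Real.log ‖τ lam‖)
      linarith
    · intro L _ _ _
      obtain ⟨Γ, -, -, -⟩ := hM σ τ lam (by linarith [hM1a σ τ]) (by linarith [hM1a σ τ])
      have hdom : IsDomain (URing lam D) := isDomain_URing hD σ j0 (by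
        have := hGa σ
        linarith)
      have hinj : Function.Injective (algebraMap (URing lam D) L) := IsFractionRing.injective _ _
      have hne : algebraMap (URing lam D) L (upol lam D (udel D)) ≠ 0 := by
        rw [Ne, map_eq_zero_iff _ hinj]
        intro h0
        have h2 := ((isUnit_udel lam D).map ((Γ none).e 0)).ne_zero
        rw [h0, map_zero, map_zero] at h2
        exact h2 rfl
      exact ⟨liftU (algebraMap (URing lam D) L) hne, fun b => liftU_toU _ _ _, fun o =>
        symb_mem_unramified _ hD hi hi' hl0 o⟩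
    · exact hM σ τ lam (by linarith [hM1a σ τ]) (by linarith [hM1a σ τ])
  refine ⟨h1, fun e he0 he he' hne => ?_⟩
  obtain ⟨C, hC⟩ := h1
  obtain ⟨σ, τ, M, hM⟩ := exists_pow he he' hne he0 C
  refine ⟨σ, τ, M, fun m hm => hC σ τ _ (he.pow m) ?_ (hM m hm).1 (hM m hm).2⟩
  rw [← inv_pow]
  exact he'.pow m

end Pool.Agent.Results.MP_51fc19_nt.UnitPencils
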